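import Pool.Agent.Helper76.P11.StC

/-!
# Project P11 (levels `11^n`), module UB: the upper bound for new symbols

Models: `Pool/Agent/Helper29/S7/M_UBof.lean`, `Pool/Agent/Helper60/Q5P7/M_UB.lean`.
-/

set_option autoImplicit false

namespace Pool.Agent.Helper56.P11

open Pool.Agent.Helper14.CV (Homog EqC act Tl StFar)
open Pool.Agent.Helper28.WK (SymP)
open Pool.Agent.Helper14.W5 (NewSymP NSP)
open Pool.Agent.Helper84.P11 (Pl11 rY11 edge11 S11PlA S11PlU S11Edg)
open Pool.Agent.Helper76.P11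

/-- The function `edge11` of the transported potential as a linear map. -/
private noncomputable def Ls (μ k m : ℕ) (u1 u2 v1 v2 : ℤ) :
    (ℤ → ℤ → ℂ) →ₗ[ℂ] (Pt m → ℂ) where
  toFun G := fun p : Pt m => edge11 μ u1 u2 v1 v2 (act 1 0 0 (11 ^ k) G) p.1 p.2
  map_add' G H := by
    funext p
    simp only [edge11, act, Pi.add_apply]
    ring
  map_smul' c G := by
    funext p
    simp only [edge11, act, Pi.smul_apply, smul_eq_mul, RingHom.id_apply]
    ring

/-- Three functions, odd exponent. -/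
private noncomputable def Lod (k : ℕ) :
    (ℤ → ℤ → ℂ) →ₗ[ℂ] (((Pt k → ℂ) × (Pt k → ℂ)) × (Pt k → ℂ)) :=
  ((Ls 0 k k 1 0 0 1).prod (Ls 0 k k 1 0 1 2)).prod (Ls 0 k k 1 0 1 3)

/-- Nine functions, even exponent. -/
private noncomputable def Lev (k m : ℕ) : (ℤ → ℤ → ℂ) →ₗ[ℂ] Fn9 m :=
  ((((Ls 1 k m 1 0 1 1).prod (Ls 1 k m 1 0 2 1)).prod
    ((Ls 1 k m 1 0 3 1).prod (Ls 1 k m 3 2 5 4))).prod
    (((Ls 1 k m 3 1 5 2).prod (Ls 1 k m 2 1 5 3)).prod
    ((Ls 1 k m 9 2 4 1).prod (Ls 1 k m 4 1 10 3)))).prod (Ls 1 k m 7 2 10 3)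

private theorem fin1 (m : ℕ) : Module.Finite ℂ (Pt m → ℂ) := inferInstance

private theorem fin4 (m : ℕ) : Module.Finite ℂ
    (((Pt m → ℂ) × (Pt m → ℂ)) × ((Pt m → ℂ) × (Pt m → ℂ))) := inferInstance

private theorem fin9 (m : ℕ) : Module.Finite ℂ (Fn9 m) :=
  @Module.Finite.prod ℂ ((((Pt m → ℂ) × (Pt m → ℂ)) × ((Pt m → ℂ) × (Pt m → ℂ))) ×
      (((Pt m → ℂ) × (Pt m → ℂ)) × ((Pt m → ℂ) × (Pt m → ℂ)))) (Pt m → ℂ) _ _ _ _ _
    (@Module.Finite.prod ℂ (((Pt m → ℂ) × (Pt m → ℂ)) × ((Pt m → ℂ) × (Pt m → ℂ)))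
      (((Pt m → ℂ) × (Pt m → ℂ)) × ((Pt m → ℂ) × (Pt m → ℂ))) _ _ _ _ _ (fin4 m) (fin4 m))
    (fin1 m)

private theorem finS (m : ℕ) : Module.Finite ℂ (subE m) := by
  have := fin9 m
  exact FiniteDimensional.finiteDimensional_submodule _

private theorem build (n D : ℕ) {W : Type} [AddCommGroup W] [Module ℂ W] [Module.Finite ℂ W]
    (hW : Module.finrank ℂ W ≤ D) (L : NSP 11 n →ₗ[ℂ] W)
    (hinj : ∀ G : NSP 11 n, L G = 0 → EqC (G : ℤ → ℤ → ℂ) 0) :
    ∃ Θ : NSP 11 n →ₗ[ℂ] (Fin D → ℂ), ∀ G : NSP 11 n, Θ G = 0 → EqC (G : ℤ → ℤ → ℂ) 0 := by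
  have h0 : Module.finrank ℂ W ≤ Module.finrank ℂ (Fin D → ℂ) := by simpa using hW
  obtain ⟨e, he⟩ := finrank_le_iff_exists_linearMap.1 h0
  refine ⟨e.comp L, fun G hG => hinj G ?_⟩
  apply he
  rw [map_zero]
  exact hG

/-- **Module UB.** -/
theorem hUB : StHUB := by
  intro hBal hE1a hE1b hO1 hDimE hDimO n hn
  rcases Nat.even_or_odd' n with ⟨k, hk | hk⟩
  · -- even exponent
    subst hk
    have hk2 : 2 ≤ k := by omega
    have key : ∀ G ∈ NSP 11 (2 * k), Lev k (k - 1) G ∈ subE (k - 1) ∧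
        (Lev k (k - 1) G = 0 → EqC G 0) := by
      intro G hG
      have hN : NewSymP 11 (2 * k) G := hG
      have hB := (hBal k G (by omega)).1 hN
      have a1 := hE1a k _ hk2 hB
      have a2 := hE1b k _ hk2 hB
      refine ⟨a1, fun h0 => ?_⟩
      have h1 := congrArg (fun z => z.1.1.1.1) h0
      have h2 := congrArg (fun z => z.1.1.1.2) h0
      have h3 := congrArg (fun z => z.1.1.2.1) h0
      have h4 := congrArg (fun z => z.1.1.2.2) h0
      have h5 := congrArg (fun z => z.1.2.1.1) h0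
      have h6 := congrArg (fun z => z.1.2.1.2) h0
      have h7 := congrArg (fun z => z.1.2.2.1) h0
      have h8 := congrArg (fun z => z.1.2.2.2) h0
      have h9 := congrArg (fun z => z.2) h0
      have h10 := a2 (fun x y => ⟨⟨congrFun h1 (x, y), congrFun h2 (x, y), congrFun h3 (x, y)⟩,
        ⟨congrFun h4 (x, y), congrFun h5 (x, y), congrFun h6 (x, y)⟩,
        ⟨congrFun h7 (x, y), congrFun h8 (x, y), congrFun h9 (x, y)⟩⟩)
      exact (hBal k G (by omega)).2.2 hN.1.1 h10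
    have hd : dd11 (2 * k) = 550 * 121 ^ (k - 2) - 10 * 11 ^ (k - 2) := by
      have h2k : 2 * k / 2 = k := by omega
      unfold dd11
      rw [if_neg (by omega), if_neg (by omega), if_neg (by omega), if_neg (by omega), h2k]
    rw [hd]
    let L1 : NSP 11 (2 * k) →ₗ[ℂ] subE (k - 1) :=
      ((Lev k (k - 1)).comp (NSP 11 (2 * k)).subtype).codRestrict (subE (k - 1))
        (fun G => (key G G.2).1)
    have := finS (k - 1)
    refine build (2 * k) _ ?_ L1 (fun G hG => ?_)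
    · rw [hDimE (k - 1) (by omega)]
      have e : k - 1 - 1 = k - 2 := by omega
      rw [e]
    · exact (key G G.2).2 (congrArg Subtype.val hG)
  · -- odd exponent
    subst hk
    have hk1 : 1 ≤ k := by omega
    have key : ∀ G ∈ NSP 11 (2 * k + 1), Lod k G ∈ subO k ∧ (Lod k G = 0 → EqC G 0) := by
      intro G hG
      have hN : NewSymP 11 (2 * k + 1) G := hG
      have hB := (hBal k G hk1).2.1 hN
      obtain ⟨a1, a2⟩ := hO1 k _ hk1 hB
      refine ⟨a1, fun h0 => ?_⟩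
      have h1 := congrArg (fun z => z.1.1) h0
      have h2 := congrArg (fun z => z.1.2) h0
      have h3 := congrArg (fun z => z.2) h0
      have h4 := a2 (fun x y => ⟨congrFun h1 (x, y), congrFun h2 (x, y), congrFun h3 (x, y)⟩)
      exact (hBal k G hk1).2.2 hN.1.1 h4
    have hd : dd11 (2 * k + 1) = 50 * 121 ^ (k - 1) + 10 * 11 ^ (k - 1) := by
      have h2k : (2 * k + 1) / 2 = k := by omega
      unfold dd11
      rw [if_neg (by omega), if_neg (by omega), if_neg (by omega), if_pos (by omega), h2k]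
    rw [hd]
    let L1 : NSP 11 (2 * k + 1) →ₗ[ℂ] subO k :=
      ((Lod k).comp (NSP 11 (2 * k + 1)).subtype).codRestrict (subO k)
        (fun G => (key G G.2).1)
    refine build (2 * k + 1) _ ?_ L1 (fun G hG => ?_)
    · rw [hDimO k hk1]
    · exact (key G G.2).2 (congrArg Subtype.val hG)

end Pool.Agent.Helper56.P11
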